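import Mathlib

set_option autoImplicit false

namespace Pool.Agent.Results.MP_626926_al.Embeds

/-- the local (locally closed) transformation monoids on `X`, ordered by inclusion -/
def Mon (X : Type) [TopologicalSpace X] : Set (Set (X → X)) :=
  {M | id ∈ M ∧ (∀ f ∈ M, ∀ g ∈ M, f ∘ g ∈ M) ∧ IsClosed M}

/-- the locally closed permutation groups on `X`: closed in `Sym X` for the subspace topology
coming from `X → X` -/
def Gr (X : Type) [TopologicalSpace X] : Set (Subgroup (Equiv.Perm X)) :=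
  {H | ∃ C : Set (X → X), IsClosed C ∧ ∀ σ : Equiv.Perm X, σ ∈ H ↔ (σ : X → X) ∈ C}

/-- the poset `P` contains `M_{2^ω}` as a sublattice: elements `b < a i < t` indexed by the
continuum many subsets `i` of `ℕ`, any two distinct ones having meet `b` and join `t` in `P` -/
def HasM (P : Type) [PartialOrder P] : Prop :=
  ∃ (b t : P) (a : Set ℕ → P), (∀ i, b < a i ∧ a i < t) ∧
    ∀ i j, i ≠ j → IsGLB {a i, a j} b ∧ IsLUB {a i, a j} t

abbrev F := HahnSeries ℤ (ZMod 2)
abbrev C := ℤ →₀ ZMod 2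

noncomputable def tr (n : ℕ) : F →+ C where
  toFun x := Finsupp.ofSupportFinite (fun k => if k < n then x.coeff k else 0)
    ((Set.finite_Icc x.order n).subset fun k hk => by
      by_cases h : k < n
      · exact ⟨HahnSeries.order_le_of_coeff_ne_zero (by simpa [h] using hk), h.le⟩
      · simp [h] at hk)
  map_zero' := by ext k; simp [Finsupp.ofSupportFinite_coe]
  map_add' x y := by
    ext k
    simp only [Finsupp.ofSupportFinite_coe, Finsupp.add_apply, HahnSeries.coeff_add]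
    split_ifs <;> simp

theorem tr_apply (n : ℕ) (x : F) (k : ℤ) : tr n x k = if k < n then x.coeff k else 0 := rfl

theorem tr_eq (n : ℕ) (x y : F) : tr n x = tr n y ↔ ∀ k : ℤ, k < n → x.coeff k = y.coeff k :=
  ⟨fun h k hk => by simpa [tr_apply, hk] using DFunLike.congr_fun h k,
   fun h => Finsupp.ext fun k => by
    rw [tr_apply, tr_apply]
    split_ifs with hk
    exacts [h k hk, rfl]⟩

theorem tr_ext {x y : F} (h : ∀ n, tr n x = tr n y) : x = y :=
  HahnSeries.ext (funext fun k => (tr_eq _ _ _).1 (h (k.toNat + 1)) k (by omega))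

theorem complete (c : ℕ → C) (h : ∀ N, ∃ x : F, ∀ n ≤ N, tr n x = c n) :
    ∃ x : F, ∀ n, tr n x = c n := by
  choose g hg using h
  have key : ∀ (n : ℕ) (k : ℤ), k < n → c (k.toNat + 1) k = (g n).coeff k := by
    intro n k hk
    have h1 := hg (n + (k.toNat + 1)) _ (Nat.le_add_left _ _)
    have h2 := (hg (n + (k.toNat + 1)) _ (Nat.le_add_right _ _)).trans (hg n n le_rfl).symm
    rw [← h1, tr_apply, if_pos (by omega), (tr_eq _ _ _).1 h2 k hk]
  refine ⟨HahnSeries.ofSuppBddBelow (fun k => c (k.toNat + 1) k) ⟨min 0 (g 0).order, ?_⟩, fun n => ?_⟩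
  · intro k hk
    rcases lt_or_ge k 0 with h | h
    · refine (min_le_right _ _).trans (HahnSeries.order_le_of_coeff_ne_zero ?_)
      rw [← key 0 k (by simpa using h)]
      exact hk
    · exact (min_le_left _ _).trans h
  · rw [← hg n n le_rfl, tr_eq]
    exact key n

open Classical in
noncomputable def lam (i : Set ℕ) : F :=
  HahnSeries.ofSuppBddBelow (fun k => if 0 ≤ k ∧ k.toNat ∈ i then 1 else 0)
    ⟨0, fun k hk => by
      by_contra h
      simp [h] at hk⟩

open Classical in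
theorem lam_coeff (i : Set ℕ) (k : ℤ) :
    (lam i).coeff k = if 0 ≤ k ∧ k.toNat ∈ i then 1 else 0 := rfl

theorem lam_inj : Function.Injective lam := by
  intro i j h
  ext n
  have := congrArg (fun x : F => x.coeff n) h
  simp only [lam_coeff] at this
  by_cases h1 : n ∈ i <;> by_cases h2 : n ∈ j <;> simp_all

theorem lam_mul (i : Set ℕ) (n : ℕ) (x y : F) (h : tr n x = tr n y) :
    tr n (lam i * x) = tr n (lam i * y) := by
  rw [tr_eq] at h ⊢
  intro k hk
  rw [← sub_eq_zero, ← HahnSeries.coeff_sub, ← mul_sub]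
  by_contra h0
  obtain ⟨a, ha, b, hb, rfl⟩ := HahnSeries.support_mul_subset h0
  have h1 : 0 ≤ a := by
    by_contra h1
    simp [lam_coeff, h1] at ha
  apply hb
  rw [HahnSeries.coeff_sub, h b (by simp only at hk; omega), sub_self]

abbrev X0 := ℕ × C × C

section
variable {X : Type} (e : X0 ≃ X)

noncomputable def act (g : F × F) : X → X := fun x =>
  e ((e.symm x).1, (e.symm x).2 + (tr (e.symm x).1 g.1, tr (e.symm x).1 g.2))

theorem act_zero : act e 0 = id := by
  ext x; simp [act, Prod.mk_zero_zero]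

theorem act_add (g h : F × F) : act e (g + h) = act e g ∘ act e h := by
  ext x
  simp only [act, Function.comp_apply, Equiv.symm_apply_apply, Prod.fst_add, Prod.snd_add, map_add,
    ← Prod.mk_add_mk]
  rw [add_comm (tr _ g.1, tr _ g.2), add_assoc]

theorem act_pt (g : F × F) (n : ℕ) : act e g (e (n, 0)) = e (n, tr n g.1, tr n g.2) := by
  simp [act]

theorem act_inj : Function.Injective (act e) := by
  intro g h H
  have : ∀ n, tr n g.1 = tr n h.1 ∧ tr n g.2 = tr n h.2 := fun n => by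
    simpa [act_pt] using congrFun H (e (n, 0))
  exact Prod.ext (tr_ext fun n => (this n).1) (tr_ext fun n => (this n).2)

theorem closed [TopologicalSpace X] [DiscreteTopology X] (S : Set (F × F))
    (hS : ∀ g : F × F, (∀ n, ∃ h ∈ S, tr n h.1 = tr n g.1 ∧ tr n h.2 = tr n g.2) → g ∈ S) :
    IsClosed (act e '' S) := by
  refine isClosed_of_closure_subset fun f hf => ?_
  have op : ∀ x, IsOpen {h : X → X | h x = f x} := fun x =>
    (isOpen_discrete {f x}).preimage (continuous_apply (A := fun _ => X) x)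
  have key : ∀ (N : ℕ) (x : X), ∃ h ∈ S, act e h x = f x ∧
      ∀ n ≤ N, e (n, tr n h.1, tr n h.2) = f (e (n, 0)) := by
    intro N x
    have ho : IsOpen ({h : X → X | h x = f x} ∩ ⋂ n ∈ Finset.range (N + 1),
        {h : X → X | h (e (n, 0)) = f (e (n, 0))}) :=
      (op x).inter (isOpen_biInter_finset fun n _ => op _)
    obtain ⟨_, ⟨h1, h2⟩, h, hS, rfl⟩ := mem_closure_iff.1 hf _ ho (by simp)
    refine ⟨h, hS, h1, fun n hn => ?_⟩
    rw [← act_pt]
    simp only [Set.mem_iInter] at h2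
    exact h2 n (Finset.mem_range.2 (by omega))
  obtain ⟨g1, h1⟩ := complete (fun n => (e.symm (f (e (n, 0)))).2.1) fun N => by
    obtain ⟨h, -, -, H⟩ := key N (e (0, 0))
    exact ⟨h.1, fun n hn => by simp [← H n hn]⟩
  obtain ⟨g2, h2⟩ := complete (fun n => (e.symm (f (e (n, 0)))).2.2) fun N => by
    obtain ⟨h, -, -, H⟩ := key N (e (0, 0))
    exact ⟨h.2, fun n hn => by simp [← H n hn]⟩
  refine ⟨(g1, g2), hS _ fun n => ?_, funext fun x => ?_⟩
  · obtain ⟨h, hh, -, H⟩ := key n (e (0, 0))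
    exact ⟨h, hh, by simp [h1, ← H n le_rfl], by simp [h2, ← H n le_rfl]⟩
  · obtain ⟨h, -, hx, H⟩ := key (e.symm x).1 x
    rw [← hx]
    simp [act, h1, h2, ← H _ le_rfl]

end

noncomputable def line (i : Set ℕ) : AddSubgroup (F × F) where
  carrier := {g | g.2 = lam i * g.1}
  add_mem' := fun {a b} (ha : _ = _) (hb : _ = _) => by
    show (a + b).2 = _ * (a + b).1
    rw [Prod.snd_add, Prod.fst_add, ha, hb, mul_add]
  zero_mem' := by simp
  neg_mem' := fun {a} (ha : _ = _) => by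
    show (-a).2 = _ * (-a).1
    rw [Prod.snd_neg, Prod.fst_neg, ha, mul_neg]

def Cl (S : AddSubgroup (F × F)) : Prop :=
  ∀ g : F × F, (∀ n, ∃ h ∈ S, tr n h.1 = tr n g.1 ∧ tr n h.2 = tr n g.2) → g ∈ S

theorem cl_top : Cl ⊤ := fun _ _ => trivial

theorem cl_bot : Cl ⊥ := fun g h => by
  have : ∀ n, tr n 0 = tr n g.1 ∧ tr n 0 = tr n g.2 := fun n => by
    obtain ⟨_, rfl, H⟩ := h n
    exact H
  exact Prod.ext (tr_ext fun n => (this n).1.symm) (tr_ext fun n => (this n).2.symm)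

theorem cl_line (i : Set ℕ) : Cl (line i) := fun g h => tr_ext fun n => by
  obtain ⟨a, ha, h1, h2⟩ := h n
  rw [← h2, ← lam_mul i n _ _ h1]
  exact congrArg _ ha

theorem meet {i j : Set ℕ} (h : i ≠ j) {g : F × F} (h1 : g ∈ line i) (h2 : g ∈ line j) : g = 0 := by
  have h3 : g.2 = lam i * g.1 := h1
  have h4 : g.2 = lam j * g.1 := h2
  have h5 : g.1 = 0 := by
    by_contra h5
    exact h (lam_inj (mul_right_cancel₀ h5 (h3.symm.trans h4)))
  exact Prod.ext h5 (by rw [h3, h5, mul_zero]; rfl)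

theorem join {i j : Set ℕ} (h : i ≠ j) (g : F × F) : ∃ a ∈ line i, ∃ b ∈ line j, g = a + b := by
  have h0 : lam i - lam j ≠ 0 := sub_ne_zero.2 fun h' => h (lam_inj h')
  let x := (g.2 - lam j * g.1) / (lam i - lam j)
  refine ⟨(x, lam i * x), rfl, (g.1 - x, lam j * (g.1 - x)), rfl, Prod.ext (by simp) ?_⟩
  simp only [x, Prod.mk_add_mk]
  field_simp
  ring

theorem abstract {P : Type} [PartialOrder P] (φ : {S // Cl S} → P) (mem : F × F → P → Prop)
    (h1 : ∀ S g, mem g (φ S) ↔ g ∈ S.1) (h2 : ∀ g p q, p ≤ q → mem g p → mem g q)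
    (h3 : ∀ S p, (∀ g ∈ S.1, mem g p) → φ S ≤ p)
    (h4 : ∀ S T p, p ≤ φ S → (∀ g, mem g p → g ∈ T.1) → p ≤ φ T)
    (h5 : ∀ p g h, mem g p → mem h p → mem (g + h) p) : HasM P := by
  have mono : ∀ S T : {S // Cl S}, S.1 ≤ T.1 → φ S ≤ φ T := fun S T h =>
    h3 S _ fun g hg => (h1 T g).2 (h hg)
  refine ⟨φ ⟨⊥, cl_bot⟩, φ ⟨⊤, cl_top⟩, fun i => φ ⟨line i, cl_line i⟩, fun i => ⟨?_, ?_⟩,
    fun i j hij => ⟨⟨?_, fun p hp => ?_⟩, ⟨?_, fun p hp => ?_⟩⟩⟩
  · refine lt_of_le_not_ge (mono _ _ bot_le) fun h => ?_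
    have := (h1 _ _).1 (h2 (1, lam i * 1) _ _ h ((h1 _ _).2 rfl))
    simp at this
  · refine lt_of_le_not_ge (mono _ _ le_top) fun h => ?_
    have : (1 : F) = lam i * 0 := (h1 _ _).1 (h2 (0, 1) _ _ h ((h1 _ _).2 trivial))
    simp at this
  · rintro _ (rfl | rfl) <;> exact mono _ _ bot_le
  · have hi := hp (Set.mem_insert _ _)
    have hj := hp (Set.mem_insert_of_mem _ rfl)
    exact h4 _ _ _ hi fun g hg => meet hij ((h1 _ _).1 (h2 _ _ _ hi hg)) ((h1 _ _).1 (h2 _ _ _ hj hg))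
  · rintro _ (rfl | rfl) <;> exact mono _ _ le_top
  · have hi := hp (Set.mem_insert _ _)
    have hj := hp (Set.mem_insert_of_mem _ rfl)
    refine h3 _ _ fun g _ => ?_
    obtain ⟨a, ha, b, hb, rfl⟩ := join hij g
    exact h5 _ _ _ (h2 _ _ _ hi ((h1 _ _).2 ha)) (h2 _ _ _ hj ((h1 _ _).2 hb))

noncomputable def perm {X : Type} (e : X0 ≃ X) : Multiplicative (F × F) →* Equiv.Perm X :=
  MonoidHom.toHomPerm
    { toFun := fun g => act e g.toAdd
      map_one' := act_zero e
      map_mul' := fun _ _ => act_add e _ _ }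

theorem result (X : Type) [TopologicalSpace X] [DiscreteTopology X] [Countable X] [Infinite X] :
    HasM (Mon X) ∧ HasM (Gr X) := by
  obtain ⟨e⟩ : Nonempty (X0 ≃ X) := nonempty_equiv_of_countable
  constructor
  · refine abstract (fun S => ⟨act e '' S.1, ⟨0, S.1.zero_mem, act_zero e⟩, ?_, closed e _ S.2⟩)
      (fun g p => act e g ∈ p.1) (fun S g => (act_inj e).mem_set_image) (fun g p q h => @h _) ?_ ?_
      fun p g h hg hh => act_add e g h ▸ p.2.2.1 _ hg _ hh
    · rintro _ ⟨g, hg, rfl⟩ _ ⟨h, hh, rfl⟩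
      exact ⟨g + h, S.1.add_mem hg hh, act_add e g h⟩
    · rintro S p h _ ⟨g, hg, rfl⟩
      exact h g hg
    · intro S T p h1 h2 f hf
      obtain ⟨g, -, rfl⟩ := h1 hf
      exact ⟨g, h2 g hf, rfl⟩
  · have hp : ∀ g, (perm e g : X → X) = act e g.toAdd := fun _ => rfl
    have hi : Function.Injective (perm e) := fun g h H => act_inj e ((hp g).symm.trans (H ▸ hp h))
    refine abstract (fun S => ⟨S.1.toSubgroup.map (perm e), act e '' S.1, closed e _ S.2, fun σ => ?_⟩)
      (fun g p => perm e (Multiplicative.ofAdd g) ∈ p.1)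
      (fun S g => Subgroup.mem_map_iff_mem hi) (fun g p q h => @h _) ?_ ?_
      fun p g h hg hh => by
        rw [ofAdd_add, map_mul]
        exact p.1.mul_mem hg hh
    · constructor
      · rintro ⟨g, hg, rfl⟩
        exact ⟨g.toAdd, hg, rfl⟩
      · rintro ⟨g, hg, h⟩
        exact ⟨Multiplicative.ofAdd g, hg, DFunLike.coe_injective h⟩
    · rintro S p h _ ⟨g, hg, rfl⟩
      exact h g.toAdd hg
    · intro S T p h1 h2 f hf
      obtain ⟨g, -, rfl⟩ := h1 hf
      exact ⟨g, h2 g.toAdd hf, rfl⟩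

end Pool.Agent.Results.MP_626926_al.Embeds
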